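import Mathlib

/-!
# The strong geodetic number of a Cartesian product can be smaller than that of a factor

For `G = K_{2,11}` and the five-cycle `H = C_5` one has `sg(G □ H) ≤ 10 < 11 = sg(G)`.

Let `u, v` be the two vertices of the small side of `G` and let `S = {u, v} × V(C_5)`, a set of ten
vertices.  There are `25` pairs `(u, j)`, `(v, k)`, and a geodesic between `(u, j)` and `(v, k)` may
run through the copy of `C_5` over any vertex of the large side of `G`, covering there a shortest
path from `j` to `k`.  These `25` arcs of `C_5` have `5 * 1 + 10 * 2 + 10 * 3 = 55` vertices and can be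
grouped into eleven partitions of `C_5`: five partitions into an arc of three and an arc of two
vertices, each of them taken twice (in the two directions), and the partition into single vertices.
-/

set_option autoImplicit false

namespace Pool.Agent.Results.MP_8400ad_co.ProductSmaller

open SimpleGraph

/-- `P` is the set of the vertices of a geodesic (a shortest path) between `x` and `y`. -/
def IsGeodesicSet {V : Type} (G : SimpleGraph V) (x y : V) (P : Set V) : Prop :=
  ∃ p : G.Walk x y, p.IsPath ∧ p.length = G.dist x y ∧ P = {v | v ∈ p.support}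

/-- `S` is a strong geodetic set: for every unordered pair `{x, y}` of distinct vertices of `S` one
can choose one geodesic (with vertex set `P s(x, y)`) such that every vertex of `G` is on at least
one of the chosen geodesics. -/
def IsStrongGeodetic {V : Type} (G : SimpleGraph V) (S : Finset V) : Prop :=
  ∃ P : Sym2 V → Set V,
    (∀ x ∈ S, ∀ y ∈ S, x ≠ y → IsGeodesicSet G x y (P s(x, y))) ∧
    ∀ v, ∃ x ∈ S, ∃ y ∈ S, x ≠ y ∧ v ∈ P s(x, y)

/-- The strong geodetic number: the least size of a strong geodetic set. -/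
noncomputable def sg {V : Type} (G : SimpleGraph V) : ℕ :=
  sInf {k | ∃ S : Finset V, IsStrongGeodetic G S ∧ S.card = k}

lemma IsGeodesicSet.symm {V : Type} {G : SimpleGraph V} {x y : V} {P : Set V}
    (h : IsGeodesicSet G x y P) : IsGeodesicSet G y x P := by
  obtain ⟨p, h1, h2, h3⟩ := h
  refine ⟨p.reverse, h1.reverse, ?_, ?_⟩
  · rw [Walk.length_reverse, h2, dist_comm]
  · rw [h3]
    ext v
    simp

lemma IsGeodesicSet.of_sym2 {V : Type} {G : SimpleGraph V} {x y x' y' : V} {P : Set V}
    (h : IsGeodesicSet G x y P) (he : s(x, y) = s(x', y')) : IsGeodesicSet G x' y' P := by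
  rw [Sym2.eq_iff] at he
  rcases he with ⟨rfl, rfl⟩ | ⟨rfl, rfl⟩
  · exact h
  · exact h.symm

lemma exists_geodesic {V : Type} {G : SimpleGraph V} (hG : G.Connected) (x y : V) :
    ∃ P, IsGeodesicSet G x y P := by
  obtain ⟨p, hp, hl⟩ := hG.exists_path_of_dist x y
  exact ⟨_, p, hp, hl, rfl⟩

lemma IsGeodesicSet.left_mem {V : Type} {G : SimpleGraph V} {x y : V} {P : Set V}
    (h : IsGeodesicSet G x y P) : x ∈ P := by
  obtain ⟨p, -, -, rfl⟩ := h
  simp

/-- In a finite connected graph with at least two vertices there is a strong geodetic set. -/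
lemma univ_strong {V : Type} [Fintype V] [Nontrivial V] {G : SimpleGraph V} (hG : G.Connected) :
    IsStrongGeodetic G Finset.univ := by
  have h : ∀ e : Sym2 V, ∃ P : Set V, ∀ x y, e = s(x, y) → IsGeodesicSet G x y P := by
    intro e
    induction e with
    | _ x y =>
      obtain ⟨P, hP⟩ := exists_geodesic hG x y
      exact ⟨P, fun x' y' he => hP.of_sym2 he⟩
  choose P hP using h
  refine ⟨P, fun x _ y _ _ => hP _ x y rfl, fun v => ?_⟩
  obtain ⟨w, hw⟩ := exists_ne v
  exact ⟨v, Finset.mem_univ _, w, Finset.mem_univ _, hw.symm, (hP _ v w rfl).left_mem⟩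

/-! ### The lower bound for `K_{2,m}` -/

abbrev K (m : ℕ) : SimpleGraph (Fin 2 ⊕ Fin m) := completeBipartiteGraph (Fin 2) (Fin m)

lemma adj_lr {m : ℕ} (a : Fin 2) (i : Fin m) : (K m).Adj (Sum.inl a) (Sum.inr i) := by
  simp [completeBipartiteGraph]

lemma adj_rl {m : ℕ} (a : Fin 2) (i : Fin m) : (K m).Adj (Sum.inr i) (Sum.inl a) :=
  (adj_lr a i).symm

lemma dist_le_two {m : ℕ} (i : Fin m) (x y : Fin 2 ⊕ Fin m) : (K m).dist x y ≤ 2 := by
  rcases x with a | j <;> rcases y with b | k
  · exact dist_le (Walk.cons (adj_lr a i) (Walk.cons (adj_rl b i) Walk.nil))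
  · exact (dist_le (Walk.cons (adj_lr a k) Walk.nil)).trans (by simp)
  · exact (dist_le (Walk.cons (adj_rl b j) Walk.nil)).trans (by simp)
  · exact dist_le (Walk.cons (adj_rl 0 j) (Walk.cons (adj_lr 0 k) Walk.nil))

lemma K_connected {m : ℕ} (i : Fin m) : (K m).Connected := by
  have : Nonempty (Fin 2 ⊕ Fin m) := ⟨Sum.inr i⟩
  refine ⟨fun x y => ?_⟩
  rcases x with a | j <;> rcases y with b | k
  · exact ⟨Walk.cons (adj_lr a i) (Walk.cons (adj_rl b i) Walk.nil)⟩
  · exact ⟨Walk.cons (adj_lr a k) Walk.nil⟩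
  · exact ⟨Walk.cons (adj_rl b j) Walk.nil⟩
  · exact ⟨Walk.cons (adj_rl 0 j) (Walk.cons (adj_lr 0 k) Walk.nil)⟩

/-- A geodesic through a vertex of the large side which is not an end of the geodesic. -/
lemma through {m : ℕ} (i : Fin m) (x y : Fin 2 ⊕ Fin m) (P : Set (Fin 2 ⊕ Fin m))
    (hP : IsGeodesicSet (K m) x y P) (hx : x ≠ Sum.inr i) (hy : y ≠ Sum.inr i) (hxy : x ≠ y)
    (hi : Sum.inr i ∈ P) :
    s(x, y) = s(Sum.inl 0, Sum.inl 1) ∧ ∀ j : Fin m, Sum.inr j ∈ P → j = i := by
  obtain ⟨p, -, h2, rfl⟩ := hP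
  have h3 := dist_le_two i x y
  rw [← h2] at h3
  simp only [Set.mem_ofPred_eq] at hi ⊢
  rcases p with _ | ⟨h1, p⟩
  · simp only [Walk.support_nil, List.mem_singleton] at hi
    exact absurd hi.symm hx
  · rcases p with _ | ⟨h4, p⟩
    · simp only [Walk.support_cons, Walk.support_nil, List.mem_cons, List.not_mem_nil,
        or_false] at hi
      rcases hi with hi | hi
      · exact absurd hi.symm hx
      · exact absurd hi.symm hy
    · rcases p with _ | ⟨h5, p⟩
      · simp only [Walk.support_cons, Walk.support_nil, List.mem_cons, List.not_mem_nil,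
          or_false] at hi ⊢
        rcases hi with hi | hi | hi
        · exact absurd hi.symm hx
        · subst hi
          rcases x with a | x
          swap
          · simp [completeBipartiteGraph] at h1
          rcases y with b | y
          swap
          · simp [completeBipartiteGraph] at h4
          refine ⟨?_, ?_⟩
          · have hab : a ≠ b := fun h => hxy (by rw [h])
            rw [Sym2.eq_iff]
            fin_cases a <;> fin_cases b <;> simp_all
          · intro j hj
            simpa using hj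
        · exact absurd hi.symm hy
      · simp only [Walk.length_cons] at h3
        omega

lemma lower {m : ℕ} (S : Finset (Fin 2 ⊕ Fin m)) (h : IsStrongGeodetic (K m) S) :
    m ≤ S.card := by
  obtain ⟨P, hP, hc⟩ := h
  -- what happens for a vertex of the large side outside `S`
  have key : ∀ i : Fin m, Sum.inr i ∉ S → (Sum.inl 0 ∈ S ∧ Sum.inl 1 ∈ S) ∧
      ∀ j : Fin m, Sum.inr j ∈ P s(Sum.inl 0, Sum.inl 1) ↔ j = i := by
    intro i hi
    obtain ⟨x, hx, y, hy, hxy, hv⟩ := hc (Sum.inr i)
    have hx' : x ≠ Sum.inr i := fun h => hi (h ▸ hx)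
    have hy' : y ≠ Sum.inr i := fun h => hi (h ▸ hy)
    obtain ⟨h1, h2⟩ := through i x y _ (hP x hx y hy hxy) hx' hy' hxy hv
    rw [h1] at hv h2
    refine ⟨?_, fun j => ⟨h2 j, fun h => h ▸ hv⟩⟩
    rw [Sym2.eq_iff] at h1
    rcases h1 with ⟨rfl, rfl⟩ | ⟨rfl, rfl⟩
    · exact ⟨hx, hy⟩
    · exact ⟨hy, hx⟩
  by_cases hall : ∀ i : Fin m, Sum.inr i ∈ S
  · calc m = (Finset.univ.map (Function.Embedding.inr : Fin m ↪ Fin 2 ⊕ Fin m)).card := by simp
      _ ≤ S.card := Finset.card_le_card (by
        intro x hx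
        simp only [Finset.mem_map, Finset.mem_univ, true_and] at hx
        obtain ⟨i, rfl⟩ := hx
        exact hall i)
  · push Not at hall
    obtain ⟨i, hi⟩ := hall
    obtain ⟨⟨h0, h1⟩, h2⟩ := key i hi
    have hother : ∀ j : Fin m, j ≠ i → Sum.inr j ∈ S := by
      intro j hj
      by_contra hjS
      obtain ⟨-, h3⟩ := key j hjS
      exact hj (((h2 j).1 ((h3 j).2 rfl)))
    have hsub : insert (Sum.inl 0) ((Finset.univ.erase i).map
        (Function.Embedding.inr : Fin m ↪ Fin 2 ⊕ Fin m)) ⊆ S := by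
      intro x hx
      simp only [Finset.mem_insert, Finset.mem_map, Finset.mem_erase, Finset.mem_univ,
        and_true] at hx
      rcases hx with rfl | ⟨j, hj, rfl⟩
      · exact h0
      · exact hother j hj
    have hcard := Finset.card_le_card hsub
    rw [Finset.card_insert_of_notMem (by simp), Finset.card_map, Finset.card_erase_of_mem
      (Finset.mem_univ _), Finset.card_univ, Fintype.card_fin] at hcard
    omega

/-! ### The upper bound for the product -/

section product

variable {m : ℕ} {W : Type} [Fintype W] [DecidableEq W] {H : SimpleGraph W}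

omit [Fintype W] [DecidableEq W] in
lemma adj1 (a : Fin 2) (i : Fin m) (j : W) :
    (K m □ H).Adj ((Sum.inl a : Fin 2 ⊕ Fin m), j) (Sum.inr i, j) :=
  boxProd_adj_left.2 (adj_lr a i)

omit [Fintype W] [DecidableEq W] in
lemma adj2 (a : Fin 2) (i : Fin m) (j : W) :
    (K m □ H).Adj ((Sum.inr i : Fin 2 ⊕ Fin m), j) (Sum.inl a, j) :=
  boxProd_adj_left.2 (adj_rl a i)

/-- a walk of `H` in the copy of `H` over the vertex `i` -/
def fibre (i : Fin m) {j k : W} (q : H.Walk j k) :
    (K m □ H).Walk (Sum.inr i, j) (Sum.inr i, k) :=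
  q.map ((K m).boxProdRight H (Sum.inr i)).toHom

omit [Fintype W] [DecidableEq W] in
lemma fibre_length (i : Fin m) {j k : W} (q : H.Walk j k) : (fibre i q).length = q.length :=
  Walk.length_map _ _

omit [Fintype W] [DecidableEq W] in
lemma mem_fibre (i : Fin m) {j k : W} (q : H.Walk j k) {w : W} (hw : w ∈ q.support) :
    (Sum.inr i, w) ∈ (fibre i q).support := by
  have h : (fibre i q).support = q.support.map ((K m).boxProdRight H (Sum.inr i)).toHom :=
    Walk.support_map _ _
  rw [h, List.mem_map]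
  exact ⟨w, hw, rfl⟩

/-- the walk from `(u, j)` to `(v, k)` through the copy of `H` over the vertex `i` -/
def through_walk (i : Fin m) {j k : W} (q : H.Walk j k) :
    (K m □ H).Walk (Sum.inl 0, j) (Sum.inl 1, k) :=
  Walk.cons (adj1 0 i j) ((fibre i q).append (Walk.cons (adj2 1 i k) Walk.nil))

omit [Fintype W] [DecidableEq W] in
lemma through_walk_length (i : Fin m) {j k : W} (q : H.Walk j k) :
    (through_walk i q).length = q.length + 2 := by
  unfold through_walk
  rw [Walk.length_cons, Walk.length_append, fibre_length]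
  simp

omit [Fintype W] [DecidableEq W] in
lemma mem_through_walk (i : Fin m) {j k : W} (q : H.Walk j k) {w : W} (hw : w ∈ q.support) :
    (Sum.inr i, w) ∈ (through_walk i q).support := by
  unfold through_walk
  rw [Walk.support_cons, List.mem_cons]
  right
  rw [Walk.mem_support_append_iff]
  left
  exact mem_fibre i q hw

omit [Fintype W] [DecidableEq W] in
lemma dist_prod (hH : H.Connected) (i : Fin m) (j k : W) :
    (K m □ H).dist (Sum.inl 0, j) (Sum.inl 1, k) = 2 + H.dist j k := by
  have hK := K_connected i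
  have hKH := hK.boxProd hH
  have h1 : (K m).dist (Sum.inl 0) (Sum.inl 1) = 2 := by
    apply le_antisymm (dist_le_two i _ _)
    apply hK.one_lt_dist_of_ne_of_not_adj
    · simp
    · simp [completeBipartiteGraph]
  have h2 := edist_boxProd (G := K m) (H := H) (Sum.inl 0, j) (Sum.inl 1, k)
  simp only at h2
  rw [← (hKH.preconnected _ _).coe_dist_eq_edist, ← (hK.preconnected _ _).coe_dist_eq_edist,
    ← (hH.preconnected _ _).coe_dist_eq_edist, h1] at h2
  exact_mod_cast h2

/-- the set `{u, v} × V(H)` -/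
def SS (m : ℕ) (W : Type) [Fintype W] : Finset ((Fin 2 ⊕ Fin m) × W) :=
  (Finset.univ.map (Function.Embedding.inl : Fin 2 ↪ Fin 2 ⊕ Fin m)) ×ˢ Finset.univ

omit [DecidableEq W] in
lemma mem_SS (a : Fin 2) (w : W) : ((Sum.inl a : Fin 2 ⊕ Fin m), w) ∈ SS m W := by
  simp [SS]

omit [DecidableEq W] in
lemma card_SS : (SS m W).card = 2 * Fintype.card W := by
  simp [SS]

/-- If the copies of `H` can be covered by the geodesics assigned to them, then the set
`{u, v} × V(H)` is strong geodetic. -/
lemma strong_product (hH : H.Connected) (i₀ : Fin m) (f : W → W → Fin m)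
    (q : ∀ j k : W, H.Walk j k) (hq : ∀ j k, (q j k).length = H.dist j k)
    (hcov : ∀ (i : Fin m) (w : W), ∃ j k, f j k = i ∧ w ∈ (q j k).support) :
    IsStrongGeodetic (K m □ H) (SS m W) := by
  have hKH := (K_connected i₀).boxProd hH
  have hgeo : ∀ j k : W, IsGeodesicSet (K m □ H) (Sum.inl 0, j) (Sum.inl 1, k)
      {v | v ∈ (through_walk (f j k) (q j k)).support} := by
    intro j k
    have hlen : (through_walk (f j k) (q j k)).length =
        (K m □ H).dist (Sum.inl 0, j) (Sum.inl 1, k) := by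
      rw [through_walk_length, hq, dist_prod hH i₀, add_comm]
    exact ⟨_, Walk.isPath_of_length_eq_dist _ hlen, hlen, rfl⟩
  have h : ∀ e : Sym2 ((Fin 2 ⊕ Fin m) × W), ∃ P : Set ((Fin 2 ⊕ Fin m) × W),
      (∀ x y, e = s(x, y) → IsGeodesicSet (K m □ H) x y P) ∧
      ∀ j k, e = s((Sum.inl 0, j), (Sum.inl 1, k)) →
        P = {v | v ∈ (through_walk (f j k) (q j k)).support} := by
    intro e
    by_cases hs : ∃ j k, e = s((Sum.inl 0, j), (Sum.inl 1, k))
    · obtain ⟨j, k, rfl⟩ := hs
      refine ⟨_, fun x y he => (hgeo j k).of_sym2 he, ?_⟩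
      intro j' k' he
      rw [Sym2.eq_iff] at he
      rcases he with ⟨h1, h2⟩ | ⟨h1, h2⟩
      · obtain rfl := congrArg Prod.snd h1
        obtain rfl := congrArg Prod.snd h2
        rfl
      · have := congrArg Prod.fst h1
        simp at this
    · induction e with
      | _ x y =>
        obtain ⟨P, hP⟩ := exists_geodesic hKH x y
        exact ⟨P, fun x' y' he => hP.of_sym2 he, fun j k he => absurd ⟨j, k, he⟩ hs⟩
  choose P hP1 hP2 using h
  refine ⟨P, fun x _ y _ _ => hP1 _ x y rfl, ?_⟩
  rintro ⟨a | i, w⟩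
  · obtain ⟨b, hb⟩ : ∃ b : Fin 2, b ≠ a := exists_ne a
    refine ⟨(Sum.inl a, w), mem_SS a w, (Sum.inl b, w), mem_SS b w, ?_, ?_⟩
    · intro h
      have := congrArg Prod.fst h
      simp only [Sum.inl.injEq] at this
      exact hb this.symm
    · exact (hP1 _ _ _ rfl).left_mem
  · obtain ⟨j, k, hf, hw⟩ := hcov i w
    refine ⟨(Sum.inl 0, j), mem_SS 0 j, (Sum.inl 1, k), mem_SS 1 k, ?_, ?_⟩
    · intro h
      have := congrArg Prod.fst h
      simp at this
    · rw [hP2 _ j k rfl]
      have := mem_through_walk (f j k) (q j k) hw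
      rw [hf] at this ⊢
      exact this

end product

/-! ### The five-cycle -/

/-- adjacency in the five-cycle as a Boolean-valued computation -/
lemma c5_adj (a b : Fin 5) : (cycleGraph 5).Adj a b ↔ (a - b = 1 ∨ b - a = 1) := Iff.rfl

instance : DecidableRel (cycleGraph 5).Adj := fun a b => by
  rw [c5_adj]; infer_instance

/-- the assignment of the pairs to the eleven vertices of the large side -/
def asg (j k : Fin 5) : Fin 11 :=
  if k = j then 10
  else if k = j + 2 then ⟨j.val, by omega⟩
  else if k = j + 1 then ⟨(j + 2).val, by omega⟩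
  else if k + 2 = j then ⟨5 + k.val, by omega⟩
  else ⟨5 + (j + 1).val, by omega⟩

lemma c5_walk (j k : Fin 5) : ∃ q : (cycleGraph 5).Walk j k,
    q.length = (cycleGraph 5).dist j k ∧ ∀ w, (w = j ∨ w = k ∨
      (j ≠ k ∧ ¬ (cycleGraph 5).Adj j k ∧ (cycleGraph 5).Adj j w ∧ (cycleGraph 5).Adj w k)) →
      w ∈ q.support := by
  by_cases hjk : j = k
  · subst hjk
    refine ⟨Walk.nil, by simp, ?_⟩
    rintro w (rfl | rfl | ⟨h, -⟩)
    · simp
    · simp
    · exact absurd rfl h
  · by_cases ha : (cycleGraph 5).Adj j k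
    · refine ⟨Walk.cons ha Walk.nil, ?_, ?_⟩
      · rw [dist_eq_one_iff_adj.2 ha]; simp
      · rintro w (rfl | rfl | ⟨-, h, -⟩)
        · simp
        · simp
        · exact absurd ha h
    · have hmid : ∃ w, (cycleGraph 5).Adj j w ∧ (cycleGraph 5).Adj w k ∧
          ∀ w', (cycleGraph 5).Adj j w' → (cycleGraph 5).Adj w' k → w' = w := by
        revert j k
        decide
      obtain ⟨w, h1, h2, h3⟩ := hmid
      refine ⟨Walk.cons h1 (Walk.cons h2 Walk.nil), ?_, ?_⟩
      · apply le_antisymm
        · have hc : (cycleGraph 5).Connected := (cycleGraph_connected : (cycleGraph (4 + 1)).Connected)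
          exact hc.one_lt_dist_of_ne_of_not_adj hjk ha
        · exact dist_le _
      · rintro w' (rfl | rfl | ⟨-, -, h4, h5⟩)
        · simp
        · simp
        · obtain rfl := h3 w' h4 h5
          simp

lemma upper : IsStrongGeodetic (K 11 □ cycleGraph 5) (SS 11 (Fin 5)) := by
  choose q hq1 hq2 using c5_walk
  refine strong_product ((cycleGraph_connected : (cycleGraph (4 + 1)).Connected)) 0 asg q hq1 ?_
  have h : ∀ (i : Fin 11) (w : Fin 5), ∃ j k, asg j k = i ∧ (w = j ∨ w = k ∨
      (j ≠ k ∧ ¬ (cycleGraph 5).Adj j k ∧ (cycleGraph 5).Adj j w ∧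
        (cycleGraph 5).Adj w k)) := by
    decide
  intro i w
  obtain ⟨j, k, h1, h2⟩ := h i w
  exact ⟨j, k, h1, hq2 j k w h2⟩

/-- `K_{2,11}` and `C_5` are connected, the strong geodetic number of `K_{2,11}` is at least `11`, and
that of the Cartesian product `K_{2,11} □ C_5` is at most `10`.  So the inequality
`sg(G □ H) ≥ max {sg(G), sg(H)}` fails for some finite connected graphs. -/
theorem result :
    ((completeBipartiteGraph (Fin 2) (Fin 11)).Connected ∧ (cycleGraph 5).Connected ∧
      11 ≤ sg (completeBipartiteGraph (Fin 2) (Fin 11)) ∧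
      sg (completeBipartiteGraph (Fin 2) (Fin 11) □ cycleGraph 5) ≤ 10) ∧
    ¬ ∀ (V W : Type) [Finite V] [Finite W] (G : SimpleGraph V) (H : SimpleGraph W),
      G.Connected → H.Connected → max (sg G) (sg H) ≤ sg (G □ H) := by
  have hlow : 11 ≤ sg (completeBipartiteGraph (Fin 2) (Fin 11)) := by
    have hnt : Nontrivial (Fin 2 ⊕ Fin 11) := ⟨Sum.inl 0, Sum.inr 0, by simp⟩
    have hne : {k | ∃ S : Finset (Fin 2 ⊕ Fin 11), IsStrongGeodetic (K 11) S ∧
        S.card = k}.Nonempty :=
      ⟨_, Finset.univ, univ_strong (K_connected (0 : Fin 11)), rfl⟩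
    obtain ⟨S, hS, hk⟩ := Nat.sInf_mem hne
    have h1 : 11 ≤ S.card := lower S hS
    rw [hk] at h1
    exact h1
  have hup : sg (completeBipartiteGraph (Fin 2) (Fin 11) □ cycleGraph 5) ≤ 10 :=
    Nat.sInf_le ⟨SS 11 (Fin 5), upper, by rw [card_SS]; simp⟩
  refine ⟨⟨K_connected (0 : Fin 11), (cycleGraph_connected : (cycleGraph (4 + 1)).Connected), hlow, hup⟩, fun h => ?_⟩
  have h1 := h (Fin 2 ⊕ Fin 11) (Fin 5) (completeBipartiteGraph (Fin 2) (Fin 11)) (cycleGraph 5)
    (K_connected (0 : Fin 11)) (cycleGraph_connected : (cycleGraph (4 + 1)).Connected)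
  have h2 := le_trans (le_max_left _ _) h1
  exact absurd (hlow.trans (h2.trans hup)) (by norm_num)

end Pool.Agent.Results.MP_8400ad_co.ProductSmaller
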